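import Pool.Agent.R123.Ace.Final
import Pool.Agent.R123.Ace.Low2

set_option autoImplicit false

open scoped ENNReal

namespace Pool.Agent.Results.MP_52ae34_co.Linear

open Pool.Agent.R123.Ace

/-- An injective morphism from words over `n` letters maps an infinite word with asymptotic
critical exponent below the integer `K` to a word with asymptotic critical exponent at most
`n K + 1`; in particular `ACE (f(w)) ≤ n (⌊ACE w⌋ + 1) + 1 ≤ (2 n + 1) ACE w`. The function `S`
grows linearly: `n - 1 ≤ S(n) ≤ 2 n + 1` (the lower bound for `n ≥ 3`). -/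
theorem result :
    (∀ (A B : Type) [Fintype A] [Nonempty B] (f : A → List B) (w : ℕ → A), InjMorphism f →
      ∀ K : ℕ, ACE w < K → ACE (image f w) ≤ Fintype.card A * K + 1) ∧
    (∀ (A B : Type) [Fintype A] [Nonempty B] (f : A → List B) (w : ℕ → A), InjMorphism f →
      ACE w ≠ ⊤ → ACE (image f w) ≤ Fintype.card A * (⌊(ACE w).toReal⌋₊ + 1 : ℕ) + 1 ∧
        ACE (image f w) ≤ (2 * Fintype.card A + 1) * ACE w) ∧
    (∀ (B : Type) [Nonempty B] (n : ℕ), S B n ≤ 2 * n + 1) ∧
    (∀ (B : Type) [Nonempty B] [Nontrivial B] (n : ℕ), 3 ≤ n → ((n - 1 : ℕ) : ℝ≥0∞) ≤ S B n) :=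
  ⟨fun _ _ _ _ _ w hf K hK => ace_image_le hf w K hK,
    fun _ _ _ _ _ w hf hw => ⟨ace_image_le_real hf w hw, ace_image_le_mul hf w hw⟩,
    fun _ _ n => S_le n,
    fun B _ _ n hn => by
      obtain ⟨k, rfl⟩ : ∃ k, n = k + 1 := ⟨n - 1, by omega⟩
      rw [Nat.add_sub_cancel]
      exact Low.S_ge B (by omega)⟩

end Pool.Agent.Results.MP_52ae34_co.Linear
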